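import Pool.Agent.Helper4.TH.LB
import Pool.Agent.Helper76.TH.Ub
import Pool.Agent.Helper93.TLH.Asm

/-!
# Project TH: the cores for levels `2·5^n` and the central values of weight two
-/

set_option autoImplicit false

namespace Pool.Agent.Helper4.TH

open Pool.Agent.Helper14.CV (G0 RootOne Lan)
open Pool.Agent.Helper28.TL (IsNewN)
open Pool.Agent.Helper28.TH (ALPlus)
open Pool.Agent.Helper93.TLH

/-- The core for levels `2·5^n`, `n ≥ 3`. -/
theorem coreH5 : CoreH 5 := core5H Pool.Agent.Helper76.TH.ubh5 lbH5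

/-- The core for level `50`. -/
theorem coreV52 : CoreV 5 2 := core52H lbH5

/-- Weight `2`, levels `2·5^n`, `n ≥ 0`, `f | W_2 = f`. -/
theorem valH5 (n : ℕ) [NeZero (2 * 5 ^ n)] (f : CuspForm (G0 (2 * 5 ^ n)) 2)
    (hf : IsNewN f) (hal : ALPlus 2 (5 ^ n) f) (hR : RootOne f) : Lan f (1 / 2) ≠ 0 :=
  lvalH5 Pool.Agent.Helper76.TH.ubh5 lbH5 n f hf hal hR

end Pool.Agent.Helper4.TH
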