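import Pool.Agent.Helper93.TLH.Defs
import Pool.Agent.Helper14.W5.StC

/-!
# Project TH (levels `2·5^n`, `W_2 = +1`): values of symbols on paths

The plane is the one of project W5 with `μ = 0`; the standard matrix of `(x, y)` is `(1, X; 5Y, 1 + 5XY)` with `X = x.val` and `Y = yH x y` even, so that it has type `HTy`.
-/

set_option autoImplicit false

namespace Pool.Agent.Helper4.TH

open Pool.Agent.Helper14.W5 (rY5 Pl5 S5PlA)
open Pool.Agent.Helper93.TLH (HTy SymH)

/-- The matrix `(a, b; 5c, d)` has type `HTy` (determinant one with `c` even, or determinant two with `a`, `c`, `d` even) and plane coordinates `(x, y)`, that is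
`b = x a` modulo `q` and `c = y d` modulo `q'`. -/
def PlH {q q' : ℕ} (a b c d : ℤ) (x : ZMod q) (y : ZMod q') : Prop :=
  HTy a b (5 * c) d ∧ (b : ZMod q) = x * a ∧ (c : ZMod q') = y * d

/-- The entry `Y` of the standard matrix `(1, X; 5 Y, 1 + 5 X Y)`, `X = x.val`, with coordinates `(x, y)`, even (`q'` odd). -/
noncomputable def yH {q q' : ℕ} (x : ZMod q) (y : ZMod q') : ℤ :=
  if (2 : ℤ) ∣ rY5 0 x y then rY5 0 x y else rY5 0 x y + (q' : ℤ)

/-- The value of the symbol of `G` on the path from `g v` to `g u` (`u = (u1,u2)`, `v = (v1,v2)`),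
where `g` is the standard matrix with plane coordinates `(x, y)`. -/
noncomputable def edgeH {R : Type} [AddCommGroup R] {q q' : ℕ} (u1 u2 v1 v2 : ℤ)
    (G : ℤ → ℤ → R) (x : ZMod q) (y : ZMod q') : R :=
  G (u1 + (x.val : ℤ) * u2) (5 * yH x y * u1 + (1 + 5 * (x.val : ℤ) * yH x y) * u2)
  - G (v1 + (x.val : ℤ) * v2) (5 * yH x y * v1 + (1 + 5 * (x.val : ℤ) * yH x y) * v2)

/-- PLH. The standard matrix has type one of `HTy` and the right coordinates. -/
def TPlH : Prop := ∀ (r s : ℕ) (x : ZMod (5 ^ r)) (y : ZMod (5 ^ s)),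
  PlH 1 (x.val : ℤ) (yH x y) (1 + 5 * (x.val : ℤ) * yH x y) x y ∧ (2 : ℤ) ∣ yH x y

theorem hPlH (hA : S5PlA) : TPlH := by
  intro r s x y
  obtain ⟨h1, h2, h3⟩ := hA 0 r s x y
  simp only [pow_zero, zero_add, pow_one, one_mul] at h1 h2 h3
  have ev : (2 : ℤ) ∣ yH x y := by
    unfold yH
    split_ifs with h
    · exact h
    · have ho : ¬ (2 : ℤ) ∣ ((5 ^ s : ℕ) : ℤ) := by
        intro h'
        have h'' : (2 : ℕ) ∣ 5 ^ s := by exact_mod_cast h'
        have := Nat.Prime.dvd_of_dvd_pow Nat.prime_two h''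
        omega
      omega
  have cs : ((yH x y : ℤ) : ZMod (5 ^ s)) = ((rY5 0 x y : ℤ) : ZMod (5 ^ s)) := by
    unfold yH
    split_ifs with h
    · rfl
    · push_cast
      have : ((5 : ZMod (5 ^ s)) ^ s) = 0 := by
        have h5 := ZMod.natCast_self (5 ^ s)
        push_cast at h5
        exact h5
      rw [this, add_zero]
  refine ⟨⟨Or.inl ⟨by ring, Dvd.dvd.mul_left ev _⟩, h2, ?_⟩, ev⟩
  push_cast
  rw [cs]
  push_cast at h3
  exact h3

/-- EDG (from PLH). For a symbol `G` and every matrix `g = (a, b; 5c, d)` of type `HTy` with plane coordinates `(x, y)` the value of `G` on the path from `g v` to `g u` is `edgeH`.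
Proof: `g0` the standard matrix (determinant one, `c0` even), `g` with the same coordinates: `γ = g adj(g0) = (α β; γ' δ)`, `α = a d0 - 5 b c0`, `β = b - a b0` (`b ≡ x a`, `b0 ≡ x`: divisible by `5^r`), `γ' = 5 (c d0 - d c0)` (`c ≡ y d`, `c0 ≡ y d0`: divisible by `5^(s+1)`), `δ = -5 c b0 + d`, is of the same
type as `g` (`c0` is even), and `g = γ g0`. Compare `Pool/Agent/Helper10/W5/M_PlU.lean` (PLU) and the module Edg of W5. -/
def TEdg : Prop := ∀ (R : Type) (_ : AddCommGroup R) (r s : ℕ) (G : ℤ → ℤ → R),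
  SymH 5 r (s + 1) G → ∀ (u1 u2 v1 v2 : ℤ), (u1 ≠ 0 ∨ u2 ≠ 0) → (v1 ≠ 0 ∨ v2 ≠ 0) →
  ∀ (x : ZMod (5 ^ r)) (y : ZMod (5 ^ s)) (a b c d : ℤ), PlH a b c d x y →
  edgeH u1 u2 v1 v2 G x y = G (a * u1 + b * u2) (5 * c * u1 + d * u2) -
    G (a * v1 + b * v2) (5 * c * v1 + d * v2)

end Pool.Agent.Helper4.TH
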