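import Pool.Agent.Helper4.TH.M_CertV00
import Pool.Agent.Helper4.TH.M_CertV01
import Pool.Agent.Helper4.TH.M_CertV10
import Pool.Agent.Helper4.TH.M_CertV11

/-!
# Project TH: finite certificate for the second operator
-/

set_option autoImplicit false

namespace Pool.Agent.Helper4.TH

theorem hCeV : TCeV := by
  intro i f
  fin_cases i <;> fin_cases f
  · exact hCeV00
  · exact hCeV01
  · exact hCeV10
  · exact hCeV11

end Pool.Agent.Helper4.TH
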