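import Pool.Agent.Helper4.TH.M_CertA
import Pool.Agent.Helper4.TH.M_CertV
import Pool.Agent.Helper75.TH.M_Edg
import Pool.Agent.Helper36.TH.M_Tre
import Pool.Agent.Helper36.TH.M_Rel
import Pool.Agent.Helper70.TH.M_ExA
import Pool.Agent.Helper85.TH.M_ExB
import Pool.Agent.Helper39.TH.M_Uni
import Pool.Agent.Helper8.TH.M_HkB
import Pool.Agent.Helper48.TH.M_HkF
import Pool.Agent.Helper4.TH.M_Hk
import Pool.Agent.Helper26.TH.M_LdU
import Pool.Agent.Helper77.TH.M_LdV
import Pool.Agent.Helper1.TH.M_Om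
import Pool.Agent.Helper99.TH.M_Lw1
import Pool.Agent.Helper40.TH.M_Sol
import Pool.Agent.Helper9.TH.M_Sur
import Pool.Agent.Helper41.TH.M_Led
import Pool.Agent.Helper94.TH.M_Itr
import Pool.Agent.Helper6.TH.M_Tri
import Pool.Agent.Helper21.TH.M_Lifp
import Pool.Agent.Helper27.TH.M_Lif
import Pool.Agent.Helper97.TH.M_Unb
import Pool.Agent.Helper12.TH.M_Cnt
import Pool.Agent.Helper74.TH.M_LBof
import Pool.Agent.Helper85.TLH.M_Hk
import Pool.Agent.Helper36.TLH.M_HkS
import Pool.Agent.Helper38.CV.M_Far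
import Pool.Agent.Helper55.CV.M_Fex
import Pool.Agent.Helper63.W5.M_PlA
import Pool.Agent.Helper16.W5.M_Trm
import Pool.Agent.Helper7.W5.M_Low0
import Pool.Agent.Helper63.W5.M_Prd
import Pool.Agent.Helper86.W5.M_SubA
import Pool.Agent.Helper36.W5.M_SubB
import Pool.Agent.Helper72.W5.M_Nfa
import Pool.Agent.Helper29.W5.M_Nf
import Pool.Agent.Helper98.W5.M_Exp
import Pool.Agent.Helper81.W5.M_Lw1
import Pool.Agent.Helper32.W5.M_Bb

/-!
# Project TH: the lower bound for levels `2·5^n`, `W_2 = +1`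
-/

set_option autoImplicit false

namespace Pool.Agent.Helper4.TH

open Pool.Agent.Helper14.W5 (S5PlA S5Trm S5Low0 S5Nfa S5Exp S5Lw1 S5Bb)
open Pool.Agent.Helper93.TLH (LBH ddH5 SHHk)

theorem plH : TPlH := hPlH Pool.Agent.Helper63.W5.hPlA

theorem trm : S5Trm := Pool.Agent.Helper16.W5.hTrm

theorem edgT : TEdg := Pool.Agent.Helper75.TH.hEdg plH

theorem treT : TTre := Pool.Agent.Helper36.TH.hTre edgT plH

theorem relT : TRel := Pool.Agent.Helper36.TH.hRel treT

theorem exT : TEx := hEx (Pool.Agent.Helper70.TH.hExA trm)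
  (Pool.Agent.Helper85.TH.hExB plH Pool.Agent.Helper55.CV.hFex Pool.Agent.Helper38.CV.hFar)

theorem uniT : TUni := Pool.Agent.Helper39.TH.hUni edgT plH Pool.Agent.Helper38.CV.hFar

theorem solT : TSol := Pool.Agent.Helper40.TH.hSol trm

theorem lifpT : TLifp := Pool.Agent.Helper21.TH.hLifp trm solT

theorem lifT : TLif := Pool.Agent.Helper27.TH.hLif relT lifpT exT uniT

theorem hkhT : SHHk := Pool.Agent.Helper85.TLH.hHk

theorem hkBT : THkB := Pool.Agent.Helper8.TH.hHkB hkhT (Pool.Agent.Helper36.TLH.hHkS hkhT)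

theorem hkFT : THkF := Pool.Agent.Helper48.TH.hHkF hkBT edgT plH

theorem triT : TTri := by
  have low0 := Pool.Agent.Helper7.W5.hLow0
  have prd := Pool.Agent.Helper63.W5.hPrd
  have subA := Pool.Agent.Helper86.W5.hSubA low0 prd
  have subB := Pool.Agent.Helper36.W5.hSubB low0 prd
  have nfa := Pool.Agent.Helper72.W5.hNfa low0 subA subB
  have nf := Pool.Agent.Helper29.W5.hNf trm low0 nfa subA
  have exp := Pool.Agent.Helper98.W5.hExp low0 nfa nf
  have lw := Pool.Agent.Helper81.W5.hLw1 low0 nfa nf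
  have bb := Pool.Agent.Helper32.W5.hBb
  have lw1 := Pool.Agent.Helper99.TH.hLw1 low0 nfa nf bb
  have rll := Pool.Agent.Helper40.TH.hRll trm
  have hk3 := hHk3 hkFT treT trm
  have hk7 := hHk7 hkFT treT trm
  have hk11 := hHk11 hkFT treT trm
  have hk13 := hHk13 hkFT treT trm
  have ldU := Pool.Agent.Helper26.TH.hLdU trm low0 nfa exp rll hCeG hCeU
  have ldV := Pool.Agent.Helper77.TH.hLdV trm low0 nfa exp rll hCeG hCeV
  have omA := Pool.Agent.Helper1.TH.hOmA trm low0 rll hCeG hCeA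
  have omB := Pool.Agent.Helper1.TH.hOmB trm low0 rll hCeG hCeB
  have sur := Pool.Agent.Helper9.TH.hSur trm low0 nfa lw lw1 bb
  have led := Pool.Agent.Helper41.TH.hLed trm low0 nfa lw lw1 bb solT sur
  have itr := Pool.Agent.Helper94.TH.hItr relT hkBT hk3 hk7 hk11 hk13 low0 ldU ldV omA omB
  exact Pool.Agent.Helper6.TH.hTri low0 bb led exT itr

theorem cntT : TCnt := Pool.Agent.Helper12.TH.hCnt

/-- The lower bound for levels `2·5^n`. -/
theorem lbH5 : LBH 5 2 ddH5 :=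
  Pool.Agent.Helper74.TH.hLBof triT lifT Pool.Agent.Helper97.TH.hUnb cntT

end Pool.Agent.Helper4.TH
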