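import Pool.Agent.Helper4.TH.StD

/-!
# Project TH: finite certificates, first part
-/

set_option autoImplicit false
set_option maxRecDepth 100000

namespace Pool.Agent.Helper4.TH

theorem hCeG : TCeG := by unfold TCeG; decide +kernel

theorem hCeA : TCeA := by unfold TCeA; decide +kernel

theorem hCeB : TCeB := by unfold TCeB; decide +kernel

theorem hCeU : TCeU := by unfold TCeU; decide +kernel

end Pool.Agent.Helper4.TH
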