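import Pool.Agent.Helper4.TH.StD

/-!
# Project TH: finite certificate for the second operator, row 0, column 0
-/

set_option autoImplicit false
set_option maxRecDepth 100000

namespace Pool.Agent.Helper4.TH

open Pool.Agent.Helper14.W5 (cS M7)

private theorem c0 : ∀ t ∈ M7, (5 : ℤ) ∣ cS (BVH 0 0) 0 t.1 t.2.1 t.2.2 -
    (if (0 : Fin 2) = 0 ∧ (0 : Fin 4) = 0 ∧ (t = (1, 0, 5) ∨ t = (3, 0, 3) ∨ t = (5, 0, 1)) then 4 else 0) := by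
  decide +kernel

private theorem c1 : ∀ t ∈ M7, (5 : ℤ) ∣ cS (BVH 0 0) 1 t.1 t.2.1 t.2.2 -
    (if (0 : Fin 2) = 0 ∧ (1 : Fin 4) = 0 ∧ (t = (1, 0, 5) ∨ t = (3, 0, 3) ∨ t = (5, 0, 1)) then 4 else 0) := by
  decide +kernel

private theorem c2 : ∀ t ∈ M7, (5 : ℤ) ∣ cS (BVH 0 0) 2 t.1 t.2.1 t.2.2 -
    (if (0 : Fin 2) = 0 ∧ (2 : Fin 4) = 0 ∧ (t = (1, 0, 5) ∨ t = (3, 0, 3) ∨ t = (5, 0, 1)) then 4 else 0) := by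
  decide +kernel

private theorem c3 : ∀ t ∈ M7, (5 : ℤ) ∣ cS (BVH 0 0) 3 t.1 t.2.1 t.2.2 -
    (if (0 : Fin 2) = 0 ∧ (3 : Fin 4) = 0 ∧ (t = (1, 0, 5) ∨ t = (3, 0, 3) ∨ t = (5, 0, 1)) then 4 else 0) := by
  decide +kernel

theorem hCeV00 : ∀ w : Fin 4, ∀ t ∈ M7, (5 : ℤ) ∣ cS (BVH 0 0) w t.1 t.2.1 t.2.2 -
    (if (0 : Fin 2) = 0 ∧ w = 0 ∧ (t = (1, 0, 5) ∨ t = (3, 0, 3) ∨ t = (5, 0, 1)) then 4 else 0) := by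
  intro w
  fin_cases w
  · exact c0
  · exact c1
  · exact c2
  · exact c3

end Pool.Agent.Helper4.TH
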