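import Pool.Agent.Helper4.TH.Edge
import Pool.Agent.Helper93.TLH.StB
import Pool.Agent.Helper14.W5.StE

/-!
# Project TH (levels `2·5^n`, `W_2 = +1`): lower bound

Models: `Helper4/TL/StD.lean` (project TL, proved; modules `Pool/Agent/*/TL/M_*.lean`) and `Helper14/W5/StD.lean` (project W5; modules `Pool/Agent/*/W5/M_*.lean`). The operator calculus on plane functions (`tr5`, `op5`, `opL`, `mulL`, `Wd5`, `Lw`, `cS`, `M7`, `nS`,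
`bb5`, and the proved statements `S5Trm, S5Low0, S5Nfa, S5Nf, S5Exp, S5Lw1, S5Bb, S5PlA`) is the one of W5, unchanged. There are no signs; the only new point are the matrices of determinant two (`HTy`, second case). The plane functions of a symbol are
`F_i(g) = G(g e_i) - G(g 0)`, `e_0 = ∞`, `e_1 = 1/2`. `T = (1 1; 0 1)`; `ρ = (4 -1; 10 -2)` (determinant two) maps `0 → 1/2 → 1/3 → 1/4 → 0`; `ρ' = (6 -5; 10 -8)` (determinant two) maps `1/2 → 2/3 → 3/4 → 1 → 1/2`; up to scalars `ρ² = (3 -1; 10 -3)`, `ρ³ = (2 -1; 10 -4)`, `ρ'² = (7 -5; 10 -7)`,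
`ρ'³ = (8 -5; 10 -6)`, `ρ⁴ = ρ'⁴ = 1` (exactly `-4`), `ρ' = ρ (1 -1; 10 -9)` (exactly `-ρ'`). The Hecke operator of level `(r, s)` is `Tl l (5^r)`, `l ≠ 2, 5`.
-/

set_option autoImplicit false

namespace Pool.Agent.Helper4.TH

open Pool.Agent.Helper14.CV (Homog EqC act Tl StFar StFex)
open Pool.Agent.Helper28.WK (Tw evw)
open Pool.Agent.Helper14.W5 (e5 tr5 Fn5 Tm opL op5 mulL sclL Gd mmL idL Wd5 dX dY Lw cS M7 nS bb5 S5PlA S5Trm S5Low0 S5Nfa S5Nf S5Exp S5Lw1 S5Bb)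
open Pool.Agent.Helper93.TLH (HTy SymH SHHk SHHkS LBH ddH5)
open Pool.Agent.Helper93.TLE (DDE)

/-- TRE (from EDG, PLH). Values on translated paths: for `γ = (a b; 5c d)` of type `HTy` the path from `γ v` to `γ u` at the point `p` is the path from `v` to `u` at `p γ`: the standard matrix `g0` has determinant one and even lower left entry, so `g0 γ` has the type of
`γ` and the coordinates `p γ` (EDG). Model: `Pool/Agent/Helper68/TL/M_Tre.lean`. -/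
def TTre : Prop := ∀ (R : Type) (_ : AddCommGroup R) (r s : ℕ) (G : ℤ → ℤ → R), SymH 5 r (s + 1) G →
  ∀ (a b c d u1 u2 v1 v2 : ℤ), HTy a b (5 * c) d → (u1 ≠ 0 ∨ u2 ≠ 0) → (v1 ≠ 0 ∨ v2 ≠ 0) →
  ∀ (x : ZMod (5 ^ r)) (y : ZMod (5 ^ s)),
  edgeH (a * u1 + b * u2) (5 * c * u1 + d * u2) (a * v1 + b * v2) (5 * c * v1 + d * v2) G x y =
    tr5 a b c d (edgeH u1 u2 v1 v2 G) x y

/-- The two plane functions of a symbol: `F0(g) = G(g∞) - G(g0)`, `F1(g) = G(g½) - G(g0)`. -/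
noncomputable def pfH {R : Type} [AddCommGroup R] {q q' : ℕ} (G : ℤ → ℤ → R) (i : Fin 2) :
    ZMod q → ZMod q' → R := fun x y => edgeH 1 (e5 i) 0 1 G x y

/-- The function of the path from `1/2` to `1`. -/
def kH {R : Type} [AddCommGroup R] {q q' : ℕ} (F : Fin 2 → ZMod q → ZMod q' → R) : ZMod q → ZMod q' → R :=
  fun x y => F 0 x y - tr5 1 1 0 1 (F 0) x y - F 1 x y

/-- The relations between the two functions: `F1 + F1∘ρ + F1∘ρ² + F1∘ρ³ = 0` and, for `k = F0 - F0∘T - F1` (path from `1/2` to `1`), `k + k∘ρ' + k∘ρ'² + k∘ρ'³ = 0`. -/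
def RelH {R : Type} [AddCommGroup R] {q q' : ℕ} (F : Fin 2 → ZMod q → ZMod q' → R) : Prop :=
  (∀ x y, F 1 x y + tr5 4 (-1) 2 (-2) (F 1) x y + tr5 3 (-1) 2 (-3) (F 1) x y + tr5 2 (-1) 2 (-4) (F 1) x y = 0) ∧
  ∀ x y, kH F x y + tr5 6 (-5) 2 (-8) (kH F) x y + tr5 7 (-5) 2 (-7) (kH F) x y + tr5 8 (-5) 2 (-6) (kH F) x y = 0

/-- REL (from TRE). The plane functions of a symbol satisfy the relations. `ρ` maps `0 → 1/2 → 1/3 → 1/4 → 0`: the four terms are the paths `0 → 1/2`, `1/2 → 1/3`, `1/3 → 1/4`, `1/4 → 0` (all matrices `(4 -1; 10 -2)`, `(3 -1; 10 -3)`, `(2 -1; 10 -4)` have type `HTy`); `F0(p) - F0(pT) = G(g1) - G(g0)`,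
so `kH` is the path `1/2 → 1` (TRE for `T`), and `ρ'` maps `1/2 → 2/3 → 3/4 → 1 → 1/2`, so its inverse powers move the path `1/2 → 1`: the four terms are `1/2 → 1`, `ρ'(1/2) = 2/3 → ρ'(1) = 1/2`, `ρ'²: 3/4 → 2/3`, `ρ'³: 1 → 3/4`: closed. Model: `Pool/Agent/Helper51/TL/M_Rel.lean`. -/
def TRel : Prop := ∀ (R : Type) (_ : AddCommGroup R) (r s : ℕ) (G : ℤ → ℤ → R),
  SymH 5 r (s + 1) G → RelH (fun i => (pfH G i : ZMod (5 ^ r) → ZMod (5 ^ s) → R))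

/-- EXA (from TRM). For a solution `F` of the relations a function `V` on the matrices `g = (a b; c d)` of determinant one with `c` even (the future value `G(g∞) - G(g0)`). Definition, for `g` of type `HTy` (both types, needed in the proof): let `p(γ) = (b/a, c'/d)` for `γ = (a b; 5c' d)`, `S' = (0 -1; 2 0)`
(`g S' = (2b -a; 2d -c)`, of type two if `g` is of type one, and `2` times a matrix of type one if `g` is of type two); by the class of `(c : d)` modulo `5`: `5 ∣ c`: `V g = F0(p(g))`; `c ≡ 2d`: `V g = F1(p(g (1 0; -2 1)))` (path `γ{0,½}`); `c ≡ d`: `V g = k(p(g (2 -1; -2 2)))` (path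
`γ{½,1}`; `p` does not change under scalars), `k = kH F`; `5 ∣ d`, `c ≡ 4d`, `c ≡ 3d`: `V g = -V(g S')` (`S'` maps these classes to the first three, in this order). Then `V (g S') = -V g` for all `g` of type `HTy` (`S'² = -2`). SQUARE RELATION `V(g) + V(gR) + V(gR²) + V(gR³) = 0`, `R = (2 -1; 2 0)` (`R` maps
`1/2 → 0 → ∞ → 1 → 1/2`): on the classes `c/d` it acts by `0 → ∞ → 3 → 4 → 0` and fixes `1` and `2`. Class `0`: `R S' = T`, `R² S' (2 -1; -2 2) = 1`, `R³ S' (1 0; -2 1) = 1` up to scalars: the relation is `F0(p) - F0(pT) - k(p) - F1(p) = 0`, the definition of `k`; classes `∞, 3, 4` follow (the relation for `gR` is the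
one for `g`). Class `2`: `(1 0; 2 1) R (1 0; -2 1) = ρ`: first relation. Class `1`: `(2 -1; -2 2)⁻¹ R (2 -1; -2 2) = ρ'³` up to scalars: second relation. Up to scalars `R² = (1 -1; 2 -1)`, `R S' = (1 1; 0 1)`, `R³ S' = (1 0; 2 1)`: with `V(gR) = -V(gRS')`, `V(gR³) = -V(gR³S')` this is the second statement below. The third
and the fourth: left multiplication by the group does not change the class and the coordinates (`γ' g`, also for `γ' = (2α β; 2γ 2δ)` of determinant two; in the fourth statement the matrix on the left is `γ' g S'/2`, `g = (a b; 2c d)`). Last: definition (class `0`; class `2`). Model: first half of `Pool/Agent/Helper69/TL/M_Ex.lean`. -/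
def TExA : Prop := ∀ (R : Type) (_ : AddCommGroup R) (r s : ℕ)
  (F : Fin 2 → ZMod (5 ^ r) → ZMod (5 ^ s) → R), RelH F →
  ∃ V : ℤ → ℤ → ℤ → ℤ → R,
    (∀ a b c d : ℤ, a * d - b * c = 1 → (2 : ℤ) ∣ c → V (-a) (-b) (-c) (-d) = V a b c d) ∧
    (∀ a b c d : ℤ, a * d - b * c = 1 → (2 : ℤ) ∣ c → V a b c d =
      V a (a + b) c (c + d) + V (a + 2 * b) b (c + 2 * d) d - V (a + 2 * b) (-(a + b)) (c + 2 * d) (-(c + d))) ∧
    (∀ α β γ δ a b c d : ℤ, α * δ - β * γ = 1 → (2 : ℤ) ∣ γ → (5 : ℤ) ^ r ∣ β → (5 : ℤ) ^ (s + 1) ∣ γ →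
      a * d - b * c = 1 → (2 : ℤ) ∣ c → V (α * a + β * c) (α * b + β * d) (γ * a + δ * c) (γ * b + δ * d) = V a b c d) ∧
    (∀ α β γ δ a b c d : ℤ, 2 * α * δ - β * γ = 1 → (5 : ℤ) ^ r ∣ β → (5 : ℤ) ^ (s + 1) ∣ γ →
      a * d - 2 * b * c = 1 → V (2 * α * b + β * d) (-(α * a + β * c)) (2 * (γ * b + δ * d)) (-(γ * a + 2 * δ * c)) =
        -V a b (2 * c) d) ∧
    (∀ (x : ZMod (5 ^ r)) (y : ZMod (5 ^ s)) (a b c d : ℤ), a * d - b * (5 * c) = 1 → (2 : ℤ) ∣ c →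
      (b : ZMod (5 ^ r)) = x * a → (c : ZMod (5 ^ s)) = y * d →
      V a b (5 * c) d = F 0 x y ∧ V (a + 2 * b) b (5 * c + 2 * d) d = F 1 x y)

/-- EXB (from PLH, FEX, FAR; no EXA needed: the function `V` is given by its properties). Every solution of the relations comes from a symbol. Proof. Given `F`, `RelH F` and `V` of EXA define for `(a b; c d)` of determinant one `E a b c d` (the value of the path from `b/d` to `a/c`): `c` even: `V a b c d`; `d` even: `-V b (-a) d (-c)`; both odd: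
`E a b c d = E a (a+b) c (c+d) + E (a+b) b (c+d) d = -V(a+b, -a; c+d, -c) + ...` through the mediant (`(a, a+b; c, c+d)` has even `c+d`, `(a+b, b; c+d, d)` has even `c+d`). `E` is invariant under the sign. Orientation `E b (-a) d (-c) = -E a b c d`: clear if `c` or `d` is even; both odd: this is the square with vertices `b/d, (a+b)/(c+d), a/c, (a-b)/(c-d)`
(second property of `V`). Triangle relation of FEX: both odd: definition; `c` even: second property of `V` at `g` (`V(g) = V(gT) + V(g(1 0; 2 1)) - V(g(1 -1; 2 -1))`, and `E (a+b) b (c+d) d = V (a+2b) b (c+2d) d - V (a+2b) (-(a+b)) (c+2d) (-(c+d))`); `d` even: second property of `V` at `(b, -(a+b); d, -(c+d))`.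
FEX gives `G`. For `γ` of type one in the group of the symbol `G∘γ - G` has equal values at both ends of the edges with `c` or `d` even (third property), so of all edges (mediant): constant by FAR. For `γ = (2α β; 2γ' 2δ)` of type two and `g = (a b; 2c d)`: `γ g ∞ = (αa + βc : γ'a + 2δc)`, `γ g 0 = (2αb + βd : 2(γ'b + δd))`, and
`G(γ g 0) - G(γ g ∞) = V(2αb + βd, -(αa + βc); 2(γ'b + δd), -(γ'a + 2δc))`: fourth property. (A matrix of type two is `(2α β; 2γ' 2δ)` with `2αδ - βγ' = 1`.) `pfH G i = F i`: last property at the standard matrix (PLH). Model: second half of `Pool/Agent/Helper69/TL/M_Ex.lean`. -/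
def TExB : Prop := ∀ (R : Type) (_ : AddCommGroup R) (r s : ℕ)
  (F : Fin 2 → ZMod (5 ^ r) → ZMod (5 ^ s) → R) (V : ℤ → ℤ → ℤ → ℤ → R),
    (∀ a b c d : ℤ, a * d - b * c = 1 → (2 : ℤ) ∣ c → V (-a) (-b) (-c) (-d) = V a b c d) →
    (∀ a b c d : ℤ, a * d - b * c = 1 → (2 : ℤ) ∣ c → V a b c d =
      V a (a + b) c (c + d) + V (a + 2 * b) b (c + 2 * d) d - V (a + 2 * b) (-(a + b)) (c + 2 * d) (-(c + d))) →
    (∀ α β γ δ a b c d : ℤ, α * δ - β * γ = 1 → (2 : ℤ) ∣ γ → (5 : ℤ) ^ r ∣ β → (5 : ℤ) ^ (s + 1) ∣ γ →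
      a * d - b * c = 1 → (2 : ℤ) ∣ c → V (α * a + β * c) (α * b + β * d) (γ * a + δ * c) (γ * b + δ * d) = V a b c d) →
    (∀ α β γ δ a b c d : ℤ, 2 * α * δ - β * γ = 1 → (5 : ℤ) ^ r ∣ β → (5 : ℤ) ^ (s + 1) ∣ γ →
      a * d - 2 * b * c = 1 → V (2 * α * b + β * d) (-(α * a + β * c)) (2 * (γ * b + δ * d)) (-(γ * a + 2 * δ * c)) =
        -V a b (2 * c) d) →
    (∀ (x : ZMod (5 ^ r)) (y : ZMod (5 ^ s)) (a b c d : ℤ), a * d - b * (5 * c) = 1 → (2 : ℤ) ∣ c →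
      (b : ZMod (5 ^ r)) = x * a → (c : ZMod (5 ^ s)) = y * d →
      V a b (5 * c) d = F 0 x y ∧ V (a + 2 * b) b (5 * c + 2 * d) d = F 1 x y) →
  ∃ G : ℤ → ℤ → R, SymH 5 r (s + 1) G ∧ ∀ i, pfH G i = F i

/-- EX (from EXA, EXB; proved below). -/
def TEx : Prop := ∀ (R : Type) (_ : AddCommGroup R) (r s : ℕ)
  (F : Fin 2 → ZMod (5 ^ r) → ZMod (5 ^ s) → R), RelH F →
  ∃ G : ℤ → ℤ → R, SymH 5 r (s + 1) G ∧ ∀ i, pfH G i = F i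

theorem hEx (ha : TExA) (hb : TExB) : TEx := by
  intro R _ r s F hF
  obtain ⟨V, h1, h2, h3, h4, h5⟩ := ha R _ r s F hF
  exact hb R _ r s F V h1 h2 h3 h4 h5

/-- UNI (from EDG, PLH, FAR). A symbol with `F0 = F1 = 0` is constant. For `γ = (a b; 5c d)` of type `HTy` (any plane point) `G` has the same value at `γ∞, γ0, γ½, γ1` (EDG; `γ1 = γT0`, `γT∞ = γ∞`). For `g` of type `HTy` this gives `G(g∞) = G(g0)` by the classes of `(c : d)` modulo `5` as in EXA: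
`5 ∣ c`: `γ = g`; `c ≡ 2d`: `γ = g (1 0; -2 1)`, `γ½ = g∞`; `c ≡ d`: `γ = g (2 -1; -2 2)` (divided by `2` if `g` has type two), `γ½ = g0`, `γ1 = g∞`; the other classes: replace `g` by `g S'`, `S' = (0 -1; 2 0)` (divided by `2` if `g` has type two), which exchanges the two ends. For an edge `(a b; c d)` of determinant one:
`c` even: type one; `d` even: turn it; both odd: through the mediant. FAR. Model: `Pool/Agent/Helper42/TL/M_Uni.lean`. -/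
def TUni : Prop := ∀ (R : Type) (_ : AddCommGroup R) (r s : ℕ) (G : ℤ → ℤ → R),
  SymH 5 r (s + 1) G → (∀ i, (pfH G i : ZMod (5 ^ r) → ZMod (5 ^ s) → R) = 0) → EqC G 0

/-- HKB. Hecke sums for balanced levels `(r, s)` (from SHHk by `G0(p,q) = G(5^r p, q)`, which is a symbol
of level `(0, r+s)` (`(a b; 5^(r+s) c d)` becomes `(a 5^r b; 5^s c d)`, the same type `HTy`), `G(p,q) = G0(p, 5^r q)`, `(Tl l 1 G0)(p,q) = (Tl l (5^r) G)(5^r p, q)`; `δ` becomes `(a, b/5^r; 5^r c, d)`), and `T_l` preserves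
symbols (SHHkS). Hypotheses: `SHHk`, `SHHkS` of `Helper93/TLH/StB.lean` (both proved). Model: `Pool/Agent/Helper43/TL/M_HkB.lean`. -/
def THkB : Prop := ∀ (R : Type) (_ : AddCommGroup R) (r s l : ℕ) (G : ℤ → ℤ → R), l.Prime →
  l ≠ 5 → l ≠ 2 → SymH 5 r s G → SymH 5 r s (Tl l (5 ^ r) G) ∧
  ∀ δ : Fin (l + 1) → Matrix (Fin 2) (Fin 2) ℤ,
  (∀ P, (δ P).det = l) → (∀ P, (5 : ℤ) ^ r ∣ δ P 0 1) → (∀ P, 2 * (5 : ℤ) ^ s ∣ δ P 1 0) →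
  (∀ P P', P ≠ P' → ¬ ∀ i j, (l : ℤ) ∣ (δ P * (δ P').adjugate) i j) →
  EqC (fun p q => ∑ P, G (δ P 0 0 * p + δ P 0 1 * q) (δ P 1 0 * p + δ P 1 1 * q)) (Tl l (5 ^ r) G)

/-- HKF (from HKB, EDG, PLH). Hecke formula on the plane for the path from `v` to `u`. `J` is a complete system of residues modulo `l`. For `g` the standard matrix with
coordinates `(x,y)` use in HKB the family `δ = g_j (1 j; 0 l) g⁻¹`, `j ∈ J`, and `g_∞ (l 0; 0 1) g⁻¹`, where `g_j` is the standard matrix with coordinates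
`((x-j)/l, l y/(1-5jy))` (this is `(x,y) (l -j; 0 1)`) and `g_∞` the one with coordinates `(l x, y/l)` (this is `(x,y)(1 0; 0 l)`). All standard matrices have determinant one and even lower left entry, so `2 ∣ δ 1 0`. Model: `Pool/Agent/Helper88/TL/M_HkF.lean`. -/
def THkF : Prop := ∀ (R : Type) (_ : AddCommGroup R) (r s l : ℕ) (G : ℤ → ℤ → R) (J : Finset ℤ),
  l.Prime → l ≠ 5 → l ≠ 2 → SymH 5 r (s + 1) G → J.card = l →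
  (∀ j ∈ J, ∀ j' ∈ J, (l : ℤ) ∣ j - j' → j = j') →
  ∀ (u1 u2 v1 v2 : ℤ), (u1 ≠ 0 ∨ u2 ≠ 0) → (v1 ≠ 0 ∨ v2 ≠ 0) → ∀ (x : ZMod (5 ^ r)) (y : ZMod (5 ^ s)),
  edgeH u1 u2 v1 v2 (Tl l (5 ^ r) G) x y =
    tr5 1 0 0 l (edgeH (l * u1) u2 (l * v1) v2 G) x y +
    ∑ j ∈ J, tr5 l (-j) 0 1 (edgeH (u1 + j * u2) (l * u2) (v1 + j * v2) (l * v2) G) x y

/-- The two relations as rows of two lists: `relH ρ f`. -/
def relH : Fin 2 → Fin 2 → List Tm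
  | 0, 0 => []
  | 0, 1 => [(1, 1, 0, 0, 1), (1, 4, -1, 2, -2), (1, 3, -1, 2, -3), (1, 2, -1, 2, -4)]
  | 1, 0 => [(1, 1, 0, 0, 1), (1, 6, -5, 2, -8), (1, 7, -5, 2, -7), (1, 8, -5, 2, -6), (-1, 1, 1, 0, 1), (-1, 6, 1, 2, 2), (-1, 7, 2, 2, 3), (-1, 8, 3, 2, 4)]
  | 1, 1 => [(-1, 1, 0, 0, 1), (-1, 6, -5, 2, -8), (-1, 7, -5, 2, -7), (-1, 8, -5, 2, -6)]

/-- RLL (from TRM). The relations as operators: `tr5 ρ'^i (tr5 T F) = tr5 (ρ'^i T) F` by TRM (`ρ' T = (6 1; 10 2)`, `(7 -5; 10 -7) T = (7 2; 10 3)`, `(8 -5; 10 -6) T = (8 3; 10 4)`). -/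
def TRll : Prop := ∀ (r s : ℕ) (F : Fin 2 → Fn5 (5 ^ r) (5 ^ s)), RelH F → ∀ ρ : Fin 2,
  ∑ f : Fin 2, opL (relH ρ f) (F f) = 0

/-- The rows of `T_3`. -/
def T3H : Fin 2 → Fin 2 → List Tm
  | 0, 0 => [(-1, 1, -1, 2, -7), (1, 1, 0, 0, 3), (1, 1, 0, 2, 3), (1, 3, -1, 0, 1), (1, 3, 0, 0, 1), (1, 3, 1, 0, 1), (-1, 4, -3, 2, -6), (1, 4, 1, 2, 4)]
  | 0, 1 => [(1, 1, -1, 2, -7), (1, 1, 0, -2, 3), (1, 4, -3, 2, -6), (1, 4, -1, -2, 4)]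
  | 1, 0 => [(-1, 1, -1, 2, -7), (1, 1, 0, 0, 3), (1, 1, 0, 2, 3), (-1, 1, 1, 0, 3), (-1, 4, -3, 2, -6), (1, 4, 1, 2, 4), (1, 6, -3, 2, -4), (-1, 6, 3, 2, 6)]
  | 1, 1 => [(1, 1, -1, 2, -7), (1, 1, 0, -2, 3), (1, 1, 1, 0, 3), (1, 3, -1, 0, 1), (1, 4, -1, -2, 4), (-1, 6, -3, 2, -4)]

/-- The rows of `T_7`. -/
def T7H : Fin 2 → Fin 2 → List Tm
  | 0, 0 => [(-1, 1, -1, 2, -3), (1, 1, 0, 0, 7), (1, 1, 0, 2, 7), (1, 2, -1, -6, 22), (1, 2, -1, -2, 12), (-1, 2, 1, -6, -8), (-1, 2, 1, -2, 2), (1, 3, -2, -2, 9), (-1, 3, 1, -2, -1), (-1, 6, -5, 2, -6), (1, 6, 1, 2, 4), (1, 7, -4, 0, 1), (1, 7, -3, 0, 1), (1, 7, -2, 0, 1), (1, 7, -1, 0, 1), (1, 7, 0, 0, 1), (1, 7, 1, 0, 1), (1, 7, 2, 0, 1)]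
  | 0, 1 => [(1, 1, -1, 2, -3), (1, 1, 0, -2, 7), (-1, 2, -1, -6, 22), (-1, 2, -1, -2, 12), (-1, 2, -1, 2, 2), (-1, 2, -1, 6, -8), (-1, 3, -2, -2, 9), (-1, 3, -1, 2, -1), (1, 6, -5, 2, -6), (1, 6, -1, -2, 4), (-1, 7, -4, 0, 1), (-1, 7, -3, 0, 1)]
  | 1, 0 => [(-1, 1, -1, 2, -3), (1, 1, 0, 0, 7), (1, 1, 0, 2, 7), (-1, 1, 3, 0, 7), (-1, 2, -3, 2, -8), (1, 2, -1, -6, 22), (1, 2, -1, -2, 12), (1, 2, -1, 2, 2), (-1, 2, 1, -6, -8), (-1, 2, 1, -2, 2), (1, 3, -2, -2, 9), (-1, 3, 1, -2, -1), (-1, 4, -7, 2, -14), (1, 4, -3, 2, -4), (1, 6, 1, 2, 4), (-1, 6, 7, 2, 14), (-1, 9, -8, 4, -17), (1, 9, 1, 4, 3), (1, 16, -9, 6, -16), (-1, 16, 7, 6, 14)]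
  | 1, 1 => [(1, 1, -1, 2, -3), (1, 1, 0, -2, 7), (1, 1, 3, 0, 7), (1, 2, -3, 2, -8), (-1, 2, -1, -6, 22), (-1, 2, -1, -2, 12), (-1, 2, -1, 2, 2), (-1, 2, -1, 6, -8), (-1, 3, -2, -2, 9), (-1, 3, -1, 2, -1), (-1, 4, -3, 2, -4), (1, 6, -1, -2, 4), (1, 7, -2, 0, 1), (1, 8, -3, 2, -2), (1, 9, -8, 4, -17), (1, 11, -2, 4, -3), (-1, 14, -7, 6, -14), (-1, 16, -9, 6, -16)]

/-- The rows of `T_11`. -/
def T11H : Fin 2 → Fin 2 → List Tm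
  | 0, 0 => [(-1, 1, -1, 2, 1), (-1, 1, -1, 4, -9), (1, 1, 0, -2, 11), (1, 1, 0, 0, 11), (1, 1, 0, 2, 11), (1, 1, 0, 4, 11), (-1, 1, 1, -2, 1), (-1, 2, -3, 2, -4), (1, 2, -1, -10, 36), (1, 2, -1, -6, 26), (1, 2, -1, -2, 16), (1, 2, -1, 2, 6), (-1, 2, 1, -10, -14), (-1, 2, 1, -6, -4), (-1, 2, 1, -2, 6), (1, 3, -2, -4, 17), (-1, 3, 1, -4, -3), (1, 4, -1, -2, 8), (-1, 4, 3, -2, -2), (-1, 8, -7, 2, -6), (1, 8, 1, 2, 4), (1, 11, -7, 0, 1), (1, 11, -6, 0, 1), (1, 11, -5, 0, 1), (1, 11, -4, 0, 1), (1, 11, -3, 0, 1), (1, 11, -2, 0, 1), (1, 11, -1, 0, 1), (1, 11, 0, 0, 1), (1, 11, 1, 0, 1), (1, 11, 2, 0, 1), (1, 11, 3, 0, 1)]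
  | 0, 1 => [(1, 1, -1, 4, -9), (1, 1, 0, -4, 11), (1, 2, -3, 2, -4), (-1, 2, -1, -10, 36), (-1, 2, -1, -6, 26), (-1, 2, -1, -2, 16), (-1, 2, -1, 2, 6), (-1, 2, -1, 6, -4), (-1, 2, -1, 10, -14), (1, 2, 1, -2, 6), (-1, 3, -2, -4, 17), (-1, 3, -1, 4, -3), (-1, 4, -3, 2, -2), (-1, 4, -1, -2, 8), (1, 8, -7, 2, -6), (1, 8, -1, -2, 4), (-1, 11, -7, 0, 1), (-1, 11, -6, 0, 1), (-1, 11, -5, 0, 1), (-1, 11, -4, 0, 1)]
  | 1, 0 => [(-1, 1, -2, 2, -9), (-1, 1, -1, 4, -9), (1, 1, 0, -2, 11), (1, 1, 0, 0, 11), (1, 1, 0, 2, 11), (1, 1, 0, 4, 11), (-1, 1, 1, -2, 1), (-1, 1, 5, 0, 11), (-1, 2, -5, 2, -14), (1, 2, -1, -10, 36), (1, 2, -1, -6, 26), (1, 2, -1, -2, 16), (1, 2, -1, 2, 6), (-1, 2, 1, -10, -14), (-1, 2, 1, -6, -4), (-1, 2, 1, -2, 6), (1, 3, -2, -4, 17), (-1, 3, 1, -4, -3), (-1, 4, -11, 2, -22), (1, 4, -3, 2, -2), (1, 4, -1, -2, 8), (-1, 4, 3,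 -2, -2), (1, 6, -1, 2, 2), (-1, 6, 11, 2, 22), (1, 7, -6, 2, -7), (-1, 7, 1, 2, 3), (-1, 9, -10, 4, -21), (1, 9, -1, 4, -1), (1, 11, -7, 0, 1), (-1, 11, 4, 0, 1), (-1, 14, -11, 6, -22), (1, 14, 3, 6, 8), (1, 16, -5, 6, -8), (-1, 16, 11, 6, 22), (1, 18, -13, 2, -6), (-1, 18, 5, 2, 4), (-1, 19, -15, 8, -31), (1, 19, 4, 8, 9), (1, 26, -15, 10, -28), (-1, 26, 11, 10, 22)]
  | 1, 1 => [(1, 1, -2, 2, -9), (1, 1, -1, 4, -9), (1, 1, 0, -4, 11), (1, 1, 5, 0, 11), (1, 2, -5, 2, -14), (-1, 2, -1, -10, 36), (-1, 2, -1, -6, 26), (-1, 2, -1, -2, 16), (-1, 2, -1, 2, 6), (-1, 2, -1, 6, -4), (-1, 2, -1, 10, -14), (1, 2, 1, -2, 6), (-1, 3, -2, -4, 17), (-1, 3, -2, 2, -3), (-1, 3, -1, 4, -3), (-1, 4, -3, 2, -2), (-1, 4, -1, -2, 8), (-1, 7, -6, 2, -7), (1, 8, 1, 2, 4), (1, 9, -10, 4, -21), (1, 9, -2, 2, -1), (-1, 11, -7, 0, 1), (1, 11, 0, 4, 1), (-1, 18,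 -13, 2, -6), (1, 19, -15, 8, -31), (1, 21, -5, 8, -9), (-1, 24, -11, 10, -22), (-1, 26, -15, 10, -28)]

/-- The rows of `T_13`. -/
def T13H : Fin 2 → Fin 2 → List Tm
  | 0, 0 => [(-1, 1, -2, 2, -7), (-1, 1, -1, 4, -7), (-1, 1, -1, 6, -17), (-1, 1, -1, 8, -27), (1, 1, 0, -2, 13), (1, 1, 0, 0, 13), (1, 1, 0, 2, 13), (1, 1, 0, 4, 13), (1, 1, 0, 6, 13), (1, 1, 0, 8, 13), (-1, 1, 1, -2, 3), (-1, 2, -3, 2, -2), (1, 2, -1, -6, 28), (1, 2, -1, -2, 18), (1, 2, -1, 2, 8), (-1, 2, 1, -6, -2), (-1, 2, 3, -2, -2), (-1, 4, -5, 2, -6), (-1, 4, -3, 6, -16), (1, 4, -1, 2, 4), (1, 4, 1, 6, 14), (-1, 6, -5, 2, -4), (1, 6, 1, 2, 6), (1, 13, -8, 0, 1), (1, 13, -7, 0, 1), (1, 13, -6, 0, 1), (1, 13, -5, 0, 1), (1, 13, -4, 0, 1), (1, 13, -3, 0, 1), (1, 13, -2, 0, 1), (1, 13, -1, 0, 1), (1, 13, 0, 0, 1), (1, 13, 1, 0, 1), (1, 13, 2, 0, 1), (1, 13, 3, 0, 1), (1,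 13, 4, 0, 1), (-1, 14, -11, 2, -6), (1, 14, 3, 2, 4)]
  | 0, 1 => [(1, 1, -2, 2, -7), (1, 1, -1, 4, -7), (1, 1, -1, 6, -17), (1, 1, -1, 8, -27), (1, 1, 0, -8, 13), (1, 1, 0, -6, 13), (1, 1, 0, -4, 13), (1, 1, 1, -2, 3), (-1, 2, -1, -6, 28), (-1, 2, -1, -2, 18), (-1, 2, -1, 2, 8), (-1, 2, -1, 6, -2), (1, 4, -5, 2, -6), (1, 4, -3, 6, -16), (1, 4, -1, -6, 14), (1, 4, 1, -2, 4), (1, 6, -5, 2, -4), (1, 6, -1, -2, 6), (-1, 13, -8, 0, 1), (-1, 13, -7, 0, 1), (-1, 13, -6, 0, 1), (-1, 13, -5, 0, 1), (1, 14, -11, 2, -6), (1, 14, -3, -2, 4)]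
  | 1, 0 => [(-1, 1, -2, 2, -7), (-1, 1, -1, 4, -7), (-1, 1, -1, 6, -17), (-1, 1, -1, 8, -27), (1, 1, 0, -2, 13), (1, 1, 0, 0, 13), (1, 1, 0, 2, 13), (1, 1, 0, 4, 13), (1, 1, 0, 6, 13), (1, 1, 0, 8, 13), (-1, 1, 1, -2, 3), (-1, 1, 6, 0, 13), (-1, 2, -5, 2, -12), (1, 2, -1, -6, 28), (1, 2, -1, -2, 18), (1, 2, -1, 2, 8), (-1, 2, 1, -6, -2), (-1, 2, 1, -2, 8), (-1, 3, -4, 2, -9), (1, 3, -1, 2, 1), (-1, 4, -13, 2, -26), (-1, 4, -3, 6, -16), (1, 4, -1, 2, 4), (1, 4, 1, 6, 14), (1, 6, 1, 2, 6), (-1, 6, 13, 2, 26), (1, 7, -2, 2, -1), (-1, 7, 5, 2, 9), (-1, 9, -11, 4, -23), (1, 9, -2, 4, -3), (-1, 14, -13, 6, -26), (1, 14, 1, 6, 4), (1, 16, -3, 6, -4), (-1, 16, 13, 6, 26), (-1, 19, -16, 8, -33), (1, 19, 3, 8, 7), (1, 26, -13, 10, -24), (-1, 26, 13, 10, 26), (1, 36, -23, 14, -44), (-1, 36, 13, 14, 26)]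
  | 1, 1 => [(1, 1, -2, 2, -7), (1, 1, -1, 4, -7), (1, 1, -1, 6, -17), (1, 1, -1, 8, -27), (1, 1, 0, -8, 13), (1, 1, 0, -6, 13), (1, 1, 0, -4, 13), (1, 1, 1, -2, 3), (1, 1, 6, 0, 13), (1, 2, -5, 2, -12), (-1, 2, -1, -6, 28), (-1, 2, -1, -2, 18), (-1, 2, -1, 2, 8), (-1, 2, -1, 6, -2), (1, 2, 1, -2, 8), (1, 4, -3, 6, -16), (1, 4, -1, -6, 14), (1, 6, -1, -2, 6), (1, 8, -1, 2, 2), (1, 9, -11, 4, -23), (1, 11, 1, 4, 3), (1, 12, -5, 2, -2), (1, 13, -4, 0, 1), (1, 14, -3, -2, 4), (1, 19, -16, 8, -33), (1, 21, -4, 8, -7), (-1, 24, -13, 10, -26), (-1, 26, -13, 10, -24), (-1, 34, -13, 14, -26), (-1, 36, -23, 14, -44)]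

/-- HK3, HK7, HK11, HK13 (from HKF, TRE, TRM). The rows of `T_l`, `l = 3, 7, 11, 13`: HKF with `J = [-(l-1)/2, ..., (l-1)/2]`; every term `m = (a b; 5c d)` of a row is `δ⁻¹ γ` up to a scalar with exactly one `δ = (l 0; 0 1)` or `(1 j; 0 l)` and `γ = δ m / l` of type `HTy`, and the paths
`γ{0, 1/e_f}` have the boundary of the path `δ{0, 1/e_i}`. Model: `Pool/Agent/Helper93/TL/M_Hk.lean` (`row_of_chk` of `Helper93/TLE/Gen.lean` with `HTy` in place of determinant one). -/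
def THk3 : Prop := ∀ (r s : ℕ) (G : ℤ → ℤ → ZMod 5), SymH 5 r (s + 1) G → ∀ i : Fin 2,
  (pfH (Tl 3 (5 ^ r) G) i : Fn5 (5 ^ r) (5 ^ s)) = ∑ f : Fin 2, opL (T3H i f) (pfH G f)

/-- See HK3. -/
def THk7 : Prop := ∀ (r s : ℕ) (G : ℤ → ℤ → ZMod 5), SymH 5 r (s + 1) G → ∀ i : Fin 2,
  (pfH (Tl 7 (5 ^ r) G) i : Fn5 (5 ^ r) (5 ^ s)) = ∑ f : Fin 2, opL (T7H i f) (pfH G f)

/-- See HK3. -/
def THk11 : Prop := ∀ (r s : ℕ) (G : ℤ → ℤ → ZMod 5), SymH 5 r (s + 1) G → ∀ i : Fin 2,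
  (pfH (Tl 11 (5 ^ r) G) i : Fn5 (5 ^ r) (5 ^ s)) = ∑ f : Fin 2, opL (T11H i f) (pfH G f)

/-- See HK3. -/
def THk13 : Prop := ∀ (r s : ℕ) (G : ℤ → ℤ → ZMod 5), SymH 5 r (s + 1) G → ∀ i : Fin 2,
  (pfH (Tl 13 (5 ^ r) G) i : Fn5 (5 ^ r) (5 ^ s)) = ∑ f : Fin 2, opL (T13H i f) (pfH G f)

/-! ### The operators -/

/-- The operator `T_3² + 2 T_11`. -/
def UoH {R : Type} [AddCommGroup R] (m : ℤ) (G : ℤ → ℤ → R) : ℤ → ℤ → R :=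
  Tl 3 m (Tl 3 m G) + (2 : ℤ) • Tl 11 m G

/-- The operator `T_3 T_13 + T_3² - T_7² - T_11 - 1`. -/
def VoH {R : Type} [AddCommGroup R] (m : ℤ) (G : ℤ → ℤ → R) : ℤ → ℤ → R :=
  Tl 3 m (Tl 13 m G) + Tl 3 m (Tl 3 m G) - Tl 7 m (Tl 7 m G) - Tl 11 m G - G

/-- The operators at the origin: `T_7 - 3` for `c = 0`, `T_11 - 2` for `c = 1`, the identity for `c ≥ 2`. -/
def PoH {R : Type} [AddCommGroup R] (m : ℤ) (c : ℕ) (G : ℤ → ℤ → R) : ℤ → ℤ → R :=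
  if c = 0 then Tl 7 m G - (3 : ℤ) • G else if c = 1 then Tl 11 m G - (2 : ℤ) • G else G

/-- The value of the symbol of `G` at `P_c U^i V^j {0, ∞}`. -/
def evH {R : Type} [AddCommGroup R] (m : ℤ) (G : ℤ → ℤ → R) (c i j : ℕ) : R :=
  (PoH m c ((UoH m)^[i] ((VoH m)^[j] G))) 1 0 - (PoH m c ((UoH m)^[i] ((VoH m)^[j] G))) 0 1

/-- The rows of `T_3² + 2 T_11`. -/
def ULH (i f : Fin 2) : List Tm := mmL T3H T3H i f ++ sclL 2 (T11H i f)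

/-- The rows of `T_3 T_13 + T_3² - T_7² - T_11 - 1`. -/
def VLH (i f : Fin 2) : List Tm :=
  mmL T3H T13H i f ++ mmL T3H T3H i f ++ sclL (-1) (mmL T7H T7H i f) ++ sclL (-1) (T11H i f) ++ idL (-1) i f

/-- The first row of `T_7 - 3`. -/
def OAH (f : Fin 2) : List Tm := T7H 0 f ++ idL (-3) 0 f

/-- The first row of `T_11 - 2`. -/
def OBH (f : Fin 2) : List Tm := T11H 0 f ++ idL (-2) 0 f

/-- Multipliers of the relations for `T_3² + 2 T_11`: `mUH i ρ`. -/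
def mUH : Fin 2 → Fin 2 → List Tm
  | 0, 0 => [(2, 2, 1, 0, 3)]
  | 0, 1 => [(-2, 1, -1, -1, -3), (1, 1, -1, 1, -3), (-1, 3, 1, 0, 1)]
  | 1, 0 => [(2, 1, 1, -1, -2), (-1, 3, 1, 1, -3)]
  | 1, 1 => [(1, 1, -1, 0, -2), (-2, 2, -1, 0, 3)]

/-- Multipliers of the relations for `T_3 T_13 + T_3² - T_7² - T_11 - 1`: `mVH i ρ`. -/
def mVH : Fin 2 → Fin 2 → List Tm
  | 0, 0 => [(-1, 1, -2, 1, 1), (1, 1, -2, 2, 2), (-2, 1, 0, 2, 1), (1, 1, 1, 0, -3), (-2, 1, 2, -2, -1), (-2, 2, -1, 1, -3), (-2, 2, 1, -2, -3), (-1, 2, 1, -2, 1), (-2, 2, 1, -1, -3), (1, 3, -2, 1, -3), (1, 3, -2, 1, -2), (-2, 3, -1, -2, 3), (-1, 3, 0, 1, -3), (-1, 3, 0, 2, -3), (1, 3, 1, 2, 3), (1, 3, 2, 1, -1)]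
  | 0, 1 => [(2, 1, -2, -1, 2), (1, 1, 0, -2, -2), (1, 1, 0, -1, -3), (-2, 1, 0, 0, -1), (-1, 1, 1, 2, -2), (-1, 2, -2, 1, -2), (-2, 2, -2, 2, -1), (-1, 2, -2, 2, 3), (-1, 2, -1, 1, -3), (-1, 2, 1, 1, -1), (1, 2, 1, 1, 1), (1, 2, 1, 2, -3), (-2, 2, 1, 2, 3), (2, 2, 2, 1, 3), (-1, 3, -2, 0, -3), (-1, 3, -1, -1, -2), (2, 3, -1, 1, -3), (-1, 3, 0, -2, -1), (-1, 3, 1, 2, -1)]
  | 1, 0 => [(1, 1, -1, -1, 2), (-1, 1, -1, 0, 1), (1, 1, 0, -2, -3), (2, 1, 1, -1, 1), (-1, 1, 1, 2, -1), (1, 1, 2, -2, 3), (-1, 1, 2, -1, -1), (-2, 1, 2, 0, -3), (-2, 2, -1, -1, 1), (1, 2, -1, 0, 2), (-2, 2, 0, 0, 2), (-2, 2, 1, -1, 3), (2, 2, 2, -2, -1), (-2, 2, 2, 0, -2), (1, 3, -2, 1, 1), (1, 3, -1, 2, -2), (1, 3, 1, 0, 2), (-2, 3, 2, -1, -1), (2, 3, 2, 0, -3), (2, 3, 2, 0, -1)]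
  | 1, 1 => [(-1, 1, -2, -2, -3), (2, 1, -1, 2, -2), (1, 1, 0, -2, -1), (-1, 1, 0, 0, -1), (-2, 2, -1, -2, -1), (-2, 2, -1, -1, -3), (-2, 2, 1, 0, -3), (1, 2, 1, 1, 2), (-1, 2, 2, 0, 2), (-2, 2, 2, 1, 3), (-2, 3, -2, -1, 2), (-1, 3, -1, 2, -2), (-1, 3, -1, 2, 1), (1, 3, 1, 2, 1)]

/-- `T_3² + 2 T_11` minus multiples of the relations. -/
def BUH (i f : Fin 2) : List Tm :=
  ULH i f ++ sclL (-1) (mulL (mUH i 0) (relH 0 f)) ++ sclL (-1) (mulL (mUH i 1) (relH 1 f))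

/-- `T_3 T_13 + T_3² - T_7² - T_11 - 1` minus multiples of the relations. -/
def BVH (i f : Fin 2) : List Tm :=
  VLH i f ++ sclL (-1) (mulL (mVH i 0) (relH 0 f)) ++ sclL (-1) (mulL (mVH i 1) (relH 1 f))

/-- The first row of `T_7 - 3` minus multiples of the relations. -/
def BAH (f : Fin 2) : List Tm :=
  OAH f ++ sclL (-1) (mulL [(2, 1, 1, 0, 1)] (relH 0 f)) ++ sclL (-1) (mulL [(-2, 2, -1, 0, 1)] (relH 1 f))

/-- The first row of `T_11 - 2` minus multiples of the relations. -/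
def BBH (f : Fin 2) : List Tm :=
  OBH f ++ sclL (-1) (mulL [(-1, 1, -1, 1, 2), (-1, 1, 0, 0, 2), (1, 1, 0, 1, -1)] (relH 0 f)) ++
    sclL (-1) (mulL [(1, 2, 1, 1, -1)] (relH 1 f))

/-- The leading operator of `T_3² + 2 T_11`. -/
def QoH {q q' : ℕ} : Module.End (ZMod 5) (Fn5 q q') := (4 : ZMod 5) • (dX * dY)

/-- The leading operator of `T_3 T_13 + T_3² - T_7² - T_11 - 1`. -/
def LoH {q q' : ℕ} : Module.End (ZMod 5) (Fn5 q q') :=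
  (4 : ZMod 5) • (dX * dY * (dX ^ 4 + dX ^ 2 * dY ^ 2 + dY ^ 4))

/-- The leading operator of `T_7 - 3` at the origin in degree 2, on `F0`. -/
def MaH {q q' : ℕ} : Module.End (ZMod 5) (Fn5 q q') := (2 : ZMod 5) • dX ^ 2

/-- The leading operator of `T_7 - 3` at the origin in degree 2, on `F1`. -/
def MbH {q q' : ℕ} : Module.End (ZMod 5) (Fn5 q q') := (4 : ZMod 5) • (dX ^ 2 + dY ^ 2)

/-- The leading operator of `T_11 - 2` at the origin in degree 4 (on `F0`; on `F1` it is zero). -/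
def McH {q q' : ℕ} : Module.End (ZMod 5) (Fn5 q q') :=
  (2 : ZMod 5) • (dX ^ 3 * dY) + (3 : ZMod 5) • (dX * dY ^ 3) + (2 : ZMod 5) • (dX ^ 2 * dY ^ 2)

/-! ### Certificates (finite computations) -/

/-- CEG. All terms are good. -/
def TCeG : Prop := ∀ i f : Fin 2, (∀ t ∈ T3H i f, Gd t) ∧ (∀ t ∈ T7H i f, Gd t) ∧ (∀ t ∈ T11H i f, Gd t) ∧
  (∀ t ∈ T13H i f, Gd t) ∧ (∀ t ∈ relH i f, Gd t) ∧ (∀ t ∈ mUH i f, Gd t) ∧ (∀ t ∈ mVH i f, Gd t)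

/-- CEU. The coefficients of `T_3² + 2 T_11` (row `i`, column `f`). -/
def TCeU : Prop := ∀ i f : Fin 2, ∀ w : Fin 4, ∀ t ∈ M7, t.1 + 4 * t.2.1 + t.2.2 ≤ 2 → (5 : ℤ) ∣ cS (BUH i f) w t.1 t.2.1 t.2.2 -
    (if i = f ∧ w = 0 ∧ t = (1, 0, 1) then 4 else 0)

/-- CEV. The coefficients of `T_3 T_13 + T_3² - T_7² - T_11 - 1` (row `i`, column `f`; lists of 1309, 960, 1528, 1169 terms). -/
def TCeV : Prop := ∀ i f : Fin 2, ∀ w : Fin 4, ∀ t ∈ M7, (5 : ℤ) ∣ cS (BVH i f) w t.1 t.2.1 t.2.2 -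
    (if i = f ∧ w = 0 ∧ (t = (1, 0, 5) ∨ t = (3, 0, 3) ∨ t = (5, 0, 1)) then 4 else 0)

/-- CEA. The coefficients of `T_7 - 3` at the origin. -/
def TCeA : Prop := ∀ f : Fin 2, ∀ i < 3, ∀ j < 3, i + j ≤ 2 → (5 : ℤ) ∣ nS (BAH f) i j -
    (if f = 0 then (if i = 2 ∧ j = 0 then 2 else 0) else (if (i = 2 ∧ j = 0) ∨ (i = 0 ∧ j = 2) then 4 else 0))

/-- CEB. The coefficients of `T_11 - 2` at the origin. -/
def TCeB : Prop := ∀ f : Fin 2, ∀ i < 5, ∀ j < 5, i + j ≤ 4 → (5 : ℤ) ∣ nS (BBH f) i j -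
    (if f = 0 then (if i = 3 ∧ j = 1 then 2 else if i = 1 ∧ j = 3 then 3 else if i = 2 ∧ j = 2 then 2 else 0) else 0)

/-! ### Leading forms -/

/-- LDU (from TRM, LOW0, NFA, EXP, RLL, CEG, CEU). Leading forms of `T_3² + 2 T_11`, for `F0`, `F1` of degree at most `d` (any integer) satisfying the relations. `opL (mulL L L') = opL L * opL L'` (TRM, all terms `Gd`), `opL (sclL n L) = n • opL L`.
So modulo the relations (RLL) the rows are the lists `BUH`, and EXP with the certificates gives the leading forms: `oW w (oB-1)^i (oD-1)^k (oA-1)^j` lowers by `i + 4k + j`; row `i`: `4 • (oB - 1) * (oA - 1)` on `F_i` (`oW 0 = 1`) plus weight at least `3`; `oB - 1 ≡ dY`, `oA - 1 ≡ dX` up to lowering by `3` (NFA).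
Model: `Pool/Agent/Helper66/TL/M_LdU.lean`. -/
def TLdU : Prop := ∀ (r s : ℕ) (d : ℤ) (F : Fin 2 → Fn5 (5 ^ r) (5 ^ s)), RelH F → F 0 ∈ Wd5 d → F 1 ∈ Wd5 d →
  ∀ i : Fin 2, (∑ f : Fin 2, opL (ULH i f) (F f)) - QoH (F i) ∈ Wd5 (d - 3)

/-- LDV (from TRM, LOW0, NFA, EXP, RLL, CEG, CEV). Leading forms of `T_3 T_13 + T_3² - T_7² - T_11 - 1`: row `i` of `BVH` is `4 (oB-1)(oA-1)^5 + 4 (oB-1)^3(oA-1)^3 + 4 (oB-1)^5(oA-1)` on `F_i` plus terms which lower by `7`. Model: `Pool/Agent/Helper4/TL/M_LdV.lean`. -/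
def TLdV : Prop := ∀ (r s : ℕ) (d : ℤ) (F : Fin 2 → Fn5 (5 ^ r) (5 ^ s)), RelH F → F 0 ∈ Wd5 d → F 1 ∈ Wd5 d →
  ∀ i : Fin 2, (∑ f : Fin 2, opL (VLH i f) (F f)) - LoH (F i) ∈ Wd5 (d - 7)

/-- OMA (from TRM, LOW0, RLL, CEG, CEA). The value at the origin of `T_7 - 3`, degree at most `2`. `dX^5 F = 0 = dY^5 F`, so `F` has periods `5`, so `(op5 a b c d F)(0,0) = F(b/a, c/d) = F(x, y)` with the natural numbers
`x = (b a³) % 5`, `y = (c d³) % 5`, and `F(x, y) = ∑_{i + j ≤ 2} (x choose i)(y choose j) (dX^i dY^j F)(0,0)`. By RLL `∑_f opL (OAH f) (F f) = ∑_f opL (BAH f) (F f)`. Model: `Pool/Agent/Helper97/TL/M_Om.lean`. -/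
def TOmA : Prop := ∀ (r s : ℕ) (F : Fin 2 → Fn5 (5 ^ r) (5 ^ s)), RelH F → F 0 ∈ Wd5 2 → F 1 ∈ Wd5 2 →
  (∑ f : Fin 2, opL (OAH f) (F f)) 0 0 = MaH (F 0) 0 0 + MbH (F 1) 0 0

/-- OMB (from TRM, LOW0, RLL, CEG, CEB). The value at the origin of `T_11 - 2`, degree at most `4`: as OMA, with `∑_{i + j ≤ 4}`. Model: `Pool/Agent/Helper53/W5/M_Om.lean` (degree `4`). -/
def TOmB : Prop := ∀ (r s : ℕ) (F : Fin 2 → Fn5 (5 ^ r) (5 ^ s)), RelH F → F 0 ∈ Wd5 4 → F 1 ∈ Wd5 4 →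
  (∑ f : Fin 2, opL (OBH f) (F f)) 0 0 = McH (F 0) 0 0

/-- LW1 (from LOW0, NFA, NF, BB). With `ρ = (4 -1; 10 -2)` (determinant two, root of unity `om4 1 = 7 ≡ 2`), `ρ² = (3 -1; 10 -3)` (root of unity `-1`, `om4 2`), and `(1 -1; 10 -9)` (root of unity `1`): normal forms by NF (exponents `(w, γ, m, β)` as in EXP: `β = b/a`, `om (5γβ + 6^m) = d/a`, `γ om = c/a` modulo `25`). `op5 1 (-1) 2 (-9)`:
`w = 0`, `γ ≡ 2`, `β ≡ -1` modulo `5`. `oW 1 dX ≡ 3 dX oW 1`, `oW 1 dY ≡ 2 dY oW 1` up to lowering by `2` (`(oW 1 F)(x, y) = F(7x, y/7)`, `dX (oW 1 F) = oW 1 (((1 + dX)^7 - 1) F)`), and `op5 ρ = oW 1 * (1 + lowering by 1)`. On `bb5 i j` (degree `i + j`): `oW 1 (bb5 i j) ≡ 2^i 3^j bb5 i j = 2^(i+3j) bb5 i j` (leading coefficient: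
apply `dX^i' dY^j'`, `i' + j' = i + j`, and the relations with `oW 1`; BB). Model: `Pool/Agent/Helper81/W5/M_Lw1.lean`. -/
def TLw1 : Prop := ∀ (r s : ℕ),
  Lw (op5 1 (-1) 2 (-9) - 1 + dX - (2 : ZMod 5) • dY : Module.End (ZMod 5) (Fn5 (5 ^ r) (5 ^ s))) 2 ∧
  Lw (op5 4 (-1) 2 (-2) * dX - (3 : ZMod 5) • (dX * op5 4 (-1) 2 (-2)) : Module.End (ZMod 5) (Fn5 (5 ^ r) (5 ^ s))) 2 ∧
  Lw (op5 4 (-1) 2 (-2) * dY - (2 : ZMod 5) • (dY * op5 4 (-1) 2 (-2)) : Module.End (ZMod 5) (Fn5 (5 ^ r) (5 ^ s))) 2 ∧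
  (∀ (d : ℤ) (F : Fn5 (5 ^ r) (5 ^ s)), F ∈ Wd5 d → Even d → op5 3 (-1) 2 (-3) F - F ∈ Wd5 (d - 1)) ∧
  (∀ (d : ℤ) (F : Fn5 (5 ^ r) (5 ^ s)), F ∈ Wd5 d → Odd d → op5 3 (-1) 2 (-3) F + F ∈ Wd5 (d - 1)) ∧
  (∀ i j : ℕ, i < 5 ^ r → j < 5 ^ s → op5 4 (-1) 2 (-2) (bb5 i j : Fn5 (5 ^ r) (5 ^ s)) -
    (2 : ZMod 5) ^ (i + 3 * j) • bb5 i j ∈ Wd5 ((i : ℤ) + j - 1))

/-- SOL (from TRM). Solutions of the relations: if `f - T f - (a - ρ a) - (b - ρ' b) = 0` then `F0 = f`, `F1 = a - ρ a` satisfy `RelH`: `ρ⁴ = -4` and `ρ'⁴ = -4` act trivially, so `(1 + ρ + ρ² + ρ³)(1 - ρ) a = 0`, and `kH F = b - ρ' b`. -/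
def TSol : Prop := ∀ (R : Type) (_ : AddCommGroup R) (r s : ℕ) (f a b : ZMod (5 ^ r) → ZMod (5 ^ s) → R),
  (∀ x y, f x y - tr5 1 1 0 1 f x y - (a x y - tr5 4 (-1) 2 (-2) a x y) - (b x y - tr5 6 (-5) 2 (-8) b x y) = 0) →
  RelH (fun i : Fin 2 => if i = 0 then f else fun x y => a x y - tr5 4 (-1) 2 (-2) a x y)

/-- SUR (from TRM, LOW0, NFA, S5Lw1 (first part: all `op5` preserve degrees), LW1, BB). Solving the inhomogeneous relation below the top degree. Proof by induction (downwards until `Wd5 (-1) = 0`): it is enough to solve up to an error in `Wd5 (e - 1)`; write `ρ`, `ρ'`, `T` for the operators; `ρ' = ρ * op5 1 (-1) 2 (-9)` by TRM, so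
`ρ' F ≡ ρ F - ρ dX F + 2 ρ dY F` modulo lowering by `2` (LW1); `ρ² = op5 3 (-1) 2 (-3) ≡ (-1)^e` on degree `e`. `e` odd: `f = b = 0`, `a = 2 (E + ρ E)`: `-(a - ρ a) ≡ -2 (E + ρ E - ρ E - ρ² E) ≡ -4 E = E`. `e` even: every `E ∈ Wd5 e` with `e < 5^r + 5^s - 2` is `dX P + dY Q` with `P, Q ∈ Wd5 (e+1)` (as in `S5Sur`, by BB).
Put `P1 = 3 P - ρ P`, `Q3 = ρ Q - 2 Q`, `E2 = E - dX P1 - dY Q3 + 2 dX Q3`, `f = -P1`, `a = 2 Q3 + 2 E2`, `b = -2 Q3`. Modulo `Wd5 e`: `ρ² ≡ -1` on degree `e + 1`, so `ρ Q3 ≡ -2 Q3`, `ρ P1 ≡ 2 P1`. So modulo `Wd5 (e-1)`: `f - T f ≡ dX P1`; `-(a - ρ a) - (b - ρ' b) = 2 (ρ - ρ') Q3 - 2 (E2 - ρ E2) ≡ 2 ρ (dX - 2 dY) Q3 - 2 (E2 - ρ E2)`,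
`ρ dX Q3 ≡ 3 dX ρ Q3 ≡ -dX Q3`, `ρ dY Q3 ≡ 2 dY ρ Q3 ≡ dY Q3`, so the first term is `-2 dX Q3 + dY Q3`; and `ρ E2 ≡ -E2`: `E2 = dX (P - P1) + dY (Q - Q3) + 2 dX Q3`, `ρ (P - P1) ≡ -2 (P - P1)`, `ρ (Q - Q3) ≡ 2 (Q - Q3)`, so `ρ` maps all three terms to their negatives; `-2 (E2 - ρ E2) ≡ -4 E2 = E2`. The sum is `E`.
Model: `Pool/Agent/Helper79/W5/M_Sur.lean`. -/
def TSur : Prop := ∀ (r s : ℕ) (e : ℤ) (E : Fn5 (5 ^ r) (5 ^ s)), e < 5 ^ r + 5 ^ s - 2 → E ∈ Wd5 e →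
  ∃ f a b : Fn5 (5 ^ r) (5 ^ s), f ∈ Wd5 (e + 1) ∧ a ∈ Wd5 (e + 1) ∧ b ∈ Wd5 (e + 1) ∧
    f - op5 1 1 0 1 f - (a - op5 4 (-1) 2 (-2) a) - (b - op5 6 (-5) 2 (-8) b) = E

/-- LED (from TRM, LOW0, NFA, S5Lw1 (first part), LW1, BB, SOL, SUR). Solutions of the relations with given leading forms `u`, `v`, `d = al + be` even (`v ≠ 0` only if `al + 3 be ≡ 2` modulo `4`). By SOL it is enough to find `f, a, b` with `f - T f - (a - ρ a) - (b - ρ' b) = 0`, `f ≡ u bb`, `a - ρ a ≡ v bb` modulo `Wd5 (d-1)`, `bb = bb5 al be`. Start with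
`f⁰ = u bb`, `a⁰ = 3 v bb`, `b⁰ = -3 v bb`: `ρ bb ≡ -bb` if `v ≠ 0` (LW1: `2^(al + 3 be) = -1`), so `a⁰ - ρ a⁰ ≡ 6 v bb = v bb`; the defect `E⁰` has degree at most `d - 1` (`(1 - T) bb`, and `(a⁰ - ρ a⁰) + (b⁰ - ρ' b⁰) = 3 v (ρ' - ρ) bb`, `ρ' - ρ` lowers by `1` as in SUR). Degree `d - 1` is odd: adding
`a' = 2 (E' + ρ E')`, `E' = -E⁰`, to `a⁰` makes the defect of degree at most `d - 2 < 5^r + 5^s - 2` (as in SUR, `e` odd); then subtract the solution of SUR, whose functions have degree at most `d - 1`. Model: `Pool/Agent/Helper80/W5/M_Led.lean`. -/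
def TLed : Prop := ∀ (r s al be : ℕ) (u v : ZMod 5), al < 5 ^ r → be < 5 ^ s → Even (al + be) →
  ((al + 3 * be) % 4 = 0 → v = 0) →
  ∃ F : Fin 2 → Fn5 (5 ^ r) (5 ^ s), RelH F ∧ F 0 - u • bb5 al be ∈ Wd5 ((al : ℤ) + be - 1) ∧
    F 1 - v • bb5 al be ∈ Wd5 ((al : ℤ) + be - 1)

/-- ITR (from REL, HKB, HK3, HK7, HK11, HK13, LOW0, LDU, LDV, OMA, OMB). Iteration. For a symbol `G` modulo 5 of level `(r, s+1)` with `F0(G), F1(G) ∈ Wd5 d`, and `m = 5^r`. Proof: `T_l` preserves symbols (HKB), so `UoH m G`, `VoH m G` are symbols (`SymH.add` etc.), with the functions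
`∑_f opL (ULH i f) F_f(G)`, `∑_f opL (VLH i f) F_f(G)` (HK; `opL (mmL ..)`; `pfH` is additive), and LD applies with `d - 2`, `d - 6` (`F_i(UoH G) ≡ QoH F_i(G)` modulo `Wd5 (d-3)`, `F_i(VoH G) ≡ LoH F_i(G)` modulo `Wd5 (d-7)`). The functions of `(UoH m)^i (VoH m)^j G` have degrees
`d' = d - 2i - 6j`, and `F_f ≡ QoH^i LoH^j F_f(G)` modulo `Wd5 (d' - 1)`. `evH m G c i j` is the value at `(0,0)` of `F0` of `P_c (UoH m)^i (VoH m)^j G` (the standard matrix of `(0,0)` is `1`: `rY5 0 0 0 = 0`); for `c = 0, 1` use OMA, OMB if `d' ≤ 2`, `d' ≤ 4` (`MaH`, `MbH` kill `Wd5 1`, `McH` kills `Wd5 3`). Model: `Pool/Agent/Helper19/TL/M_Itr.lean`. -/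
def TItr : Prop := ∀ (r s : ℕ) (G : ℤ → ℤ → ZMod 5) (d : ℕ), SymH 5 r (s + 1) G →
  (pfH G 0 : Fn5 (5 ^ r) (5 ^ s)) ∈ Wd5 (d : ℤ) → (pfH G 1 : Fn5 (5 ^ r) (5 ^ s)) ∈ Wd5 (d : ℤ) →
  ∀ i j : ℕ,
  (d < 2 * i + 6 * j → evH (5 ^ r) G 2 i j = 0) ∧
  (2 * i + 6 * j = d → evH (5 ^ r) G 2 i j =
    ((QoH ^ i * LoH ^ j : Module.End (ZMod 5) (Fn5 (5 ^ r) (5 ^ s))) (pfH G 0)) 0 0) ∧
  (d < 2 * i + 6 * j + 2 → evH (5 ^ r) G 0 i j = 0) ∧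
  (2 * i + 6 * j + 2 = d → evH (5 ^ r) G 0 i j =
    ((MaH * QoH ^ i * LoH ^ j : Module.End (ZMod 5) (Fn5 (5 ^ r) (5 ^ s))) (pfH G 0)) 0 0 +
    ((MbH * QoH ^ i * LoH ^ j : Module.End (ZMod 5) (Fn5 (5 ^ r) (5 ^ s))) (pfH G 1)) 0 0) ∧
  (d < 2 * i + 6 * j + 4 → evH (5 ^ r) G 1 i j = 0) ∧
  (2 * i + 6 * j + 4 = d → evH (5 ^ r) G 1 i j =
    ((McH * QoH ^ i * LoH ^ j : Module.End (ZMod 5) (Fn5 (5 ^ r) (5 ^ s))) (pfH G 0)) 0 0)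

/-- The exponents of the families: `c = 0`: `(2, 0)`, `c = 1`: `(3, 1)`, `c = 2`: `(0, 0)`. -/
def aH (c : ℕ) : ℕ := if c = 0 then 2 else if c = 1 then 3 else 0

/-- See `aH`. -/
def bH (c : ℕ) : ℕ := if c = 1 then 1 else 0

/-- TRI (from LOW0, BB, LED, EX, ITR). Triangular system of symbols modulo 5. For `(c, i, j)`, `c ≤ 2`, put `al = aH c + i + 5j < 5^r`, `be = bH c + i + j < 5^s`, `D = al + be = aH c + bH c + 2i + 6j` (even); take LED with `(u, v) = (0, 1)` for `c = 0` (`al + 3 be = 2 + 4i + 8j ≡ 2` modulo `4`) and `(1, 0)` for `c = 1, 2`, and the symbol `G` of EX.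
By ITR `evH G c' i' j' = 0` if `D' > D`. Let `D' = D`, and let `X`, `Y` be `dX`, `dY`; terms of degree lower than `D` are killed. `c = 0`: `F0 ≡ 0`, so `c' = 1, 2` give `0`, and `c' = 0` gives a nonzero constant times `((X² + Y²) (XY)^(i'+j') (X⁴ + X²Y² + Y⁴)^j' bb5 al be)(0,0)`, the coefficient of `X^al Y^be`: zero if `i' + j' > be = i + j`; `1` for
`(i', j') = (i, j)` (the coefficient of `X^(2+4j)`). `c = 1` (`F1 ≡ 0`, `al - be = 2 + 4j`): `c' = 2`: monomials `X^a Y^b` with `a - b ≡ 0` modulo `4`: zero; `c' = 1`: `XY (2X² + 3Y² + 2XY)(XY)^(i'+j')(...)^j'`: zero if `i' + j' + 1 > be`, and `2` for `(i, j)` (coefficient of `X^(2 + 4j)` in `(2X² + 3Y² + 2XY)(...)^j`); `c' = 0 < c` is allowed.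
`c = 2`: `c' = 2`: `(XY)^(i'+j') (...)^j'`: zero if `i' + j' > be`, `1` for `(i, j)`; `c' = 0, 1 < c` are allowed. Model: `Pool/Agent/Helper58/TL/M_Tri.lean`. -/
def TTri : Prop := ∀ (r s c i j : ℕ), c ≤ 2 → aH c + i + 5 * j < 5 ^ r → bH c + i + j < 5 ^ s →
  ∃ G : ℤ → ℤ → ZMod 5, SymH 5 r (s + 1) G ∧ evH (5 ^ r) G c i j ≠ 0 ∧
    ∀ c' i' j' : ℕ, c' ≤ 2 → evH (5 ^ r) G c' i' j' ≠ 0 →
      (aH c' + bH c' + 2 * i' + 6 * j' < aH c + bH c + 2 * i + 6 * j ∨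
        (aH c' + bH c' + 2 * i' + 6 * j' = aH c + bH c + 2 * i + 6 * j ∧
          (c' < c ∨ (c' = c ∧ i' + j' ≤ i + j))))

/-- LIFP (from TRM, SOL). Lifting solutions of the relations to integers. Modulo 5 put `a = -(3 f1 + 2 ρ f1 + ρ² f1)` (`f1 + ρ f1 + ρ² f1 + ρ³ f1 = 0`, so `a - ρ a = -(3 f1 - ρ f1 - ρ² f1 - ρ³ f1) = -4 f1 = f1`; `ρ³ = (2 -1; 10 -4)` by TRM), and `b` from `k = kH f` with `ρ'` in the same way; then `f0 - T f0 - (a - ρ a) - (b - ρ' b) = 0`.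
Take any integral lifts of `f0, a, b`; the defect `E` of this equation is divisible by 5 and has total sum zero over the plane (`p ↦ pT` etc. are bijections, TRM); `E/5` has total sum zero, and every integral function with sum zero is the defect of some
`(f, a, b)`, because modulo defects `δ_p ≡ δ_(pg)` for `g = T, ρ, ρ'`, so also for `B' = (1 0; -10 1) = T⁻¹ ρ'⁻¹ ρ` (up to sign and scalar), and the plane is connected under `T` and `B'` (`(x,y) T^z = (x + z, y/(1 + 5zy))`, `(x, y) B'^z = (x/(1 - 10zx), y - 2z)`, `2` is invertible: move to `(0, y')` and then to `(0,0)`). Subtract `5` times this solution; SOL. Model: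
`Pool/Agent/Helper92/W5/M_Lifp.lean`. -/
def TLifp : Prop := ∀ (r s : ℕ) (f : Fin 2 → Fn5 (5 ^ r) (5 ^ s)), RelH f →
  ∃ F : Fin 2 → ZMod (5 ^ r) → ZMod (5 ^ s) → ℤ, RelH F ∧
    ∀ i x y, ((F i x y : ℤ) : ZMod 5) = f i x y

/-- LIF (from REL, LIFP, EX, UNI). Lifting symbols: every symbol `g` modulo 5 lifts to an integral symbol `G` with the same
`evH` modulo 5. Proof: REL, LIFP, EX over `ℤ`; the reduction of `G` is a symbol with the same two functions as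
`g`, so by UNI it equals `g` up to a constant; `evH` commutes with reduction. Model: `Pool/Agent/Helper67/TL/M_Lif.lean`. -/
def TLif : Prop := ∀ (r s : ℕ) (g : ℤ → ℤ → ZMod 5), SymH 5 r (s + 1) g →
  ∃ G : ℤ → ℤ → ℤ, SymH 5 r (s + 1) G ∧
    ∀ c i j : ℕ, ((evH (5 ^ r) G c i j : ℤ) : ZMod 5) = evH (5 ^ r) g c i j

/-- UNB. Back to `Γ₀(2·5^n)` and to complex values: if `G` is an integral symbol of level `(r, s)` then
`G0(p,q) = G(5^r p, q)` (as complex numbers) is a symbol of level `(0, r+s)` with `evH 1 G0 = evH (5^r) G` (`Tl l 1 G0 (p,q) = Tl l (5^r) G (5^r p, q)`). Model: `Pool/Agent/Helper4/TL/M_Unb.lean`. -/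
def TUnb : Prop := ∀ (r s : ℕ) (G : ℤ → ℤ → ℤ), SymH 5 r s G →
  SymH 5 0 (r + s) (fun p q => ((G (5 ^ r * p) q : ℤ) : ℂ)) ∧
    ∀ c i j : ℕ, evH 1 (fun p q => ((G (5 ^ r * p) q : ℤ) : ℂ)) c i j = ((evH (5 ^ r) G c i j : ℤ) : ℂ)

/-- CNT. Counting the index sets. `DDE 2 ddH5 (2k) = (3t² + t)/2`, `DDE 2 ddH5 (2k+1) = (15t² + 5t)/2` with `t = 5^(k-1)` (`k ≥ 1`; induction: `2, 10, 40, 200, 950`). First set: the first condition follows from the second (`i + 5j ≤ 5 (t - 1 - bH c)`); `c = 0, 2`: `t(t+1)/2` each, `c = 1`: `t(t-1)/2`. Second set: the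
second condition follows from the first (`bH c ≤ aH c`); `c = 2`: `∑_{j<t} (5t - 5j) = 5t(t+1)/2`, `c = 0`: `∑_{j<t} (5t - 2 - 5j) = 5t(t+1)/2 - 2t`, `c = 1`: `5t(t+1)/2 - 3t`. Model: `Pool/Agent/Helper4/TL/M_Cnt.lean`. -/
def TCnt : Prop :=
  (∀ k : ℕ, 1 ≤ k → ((Finset.range 3 ×ˢ Finset.range (5 ^ k) ×ˢ Finset.range (5 ^ k)).filter
    fun t : ℕ × ℕ × ℕ => aH t.1 + t.2.1 + 5 * t.2.2 < 5 ^ k ∧ bH t.1 + t.2.1 + t.2.2 < 5 ^ (k - 1)).card = DDE 2 ddH5 (2 * k)) ∧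
  (∀ k : ℕ, 1 ≤ k → ((Finset.range 3 ×ˢ Finset.range (5 ^ k) ×ˢ Finset.range (5 ^ k)).filter
    fun t : ℕ × ℕ × ℕ => aH t.1 + t.2.1 + 5 * t.2.2 < 5 ^ k ∧ bH t.1 + t.2.1 + t.2.2 < 5 ^ k).card = DDE 2 ddH5 (2 * k + 1))

/-- LB from TRI, LIF, UNB, CNT. For `n = 2k` (`k ≥ 1`) use `(r,s) = (k,k-1)`, for `n = 2k+1` use
`(r,s) = (k,k)`: level `(r, s+1)`. The matrix `M (κ, (c,i,j)) = evH G_κ c i j` (`κ`, `(c,i,j)` in the index set of CNT) is integral, and modulo 5 its rows are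
linearly independent: in a relation `∑ x_κ M(κ,·) = 0` take `κ0` maximal with `x_{κ0} ≠ 0` for the lexicographic order of (`D = aH c + bH c + 2i + 6j`, `c`, `i + j`), which determines `(c, i, j)`; the column `κ0` gives `x_{κ0} = 0`. So its
determinant is prime to `5`, nonzero in `ℂ`. If a combination `H` of the `G_κ` (complex, level `(0, n)`) is killed by all words (`evLH 5 H = 0`, that is `evw 1 ls H = 0` for `OkE 5 ls`) then `evH 1 H c i j = 0`: the set of all `K` with `evw 1 ls K = 0` for all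
words is stable under `Tl l 1`, `l = 3, 7, 11, 13` (`Tw 1 ls (Tl l 1 K) = Tw 1 (ls ++ [l]) K`), sums and integer multiples. So the vectors `evLH 5 (G_κ)` are independent. Model: `Pool/Agent/Helper77/TL/M_LBof.lean`. -/
def TLBof : Prop := TTri → TLif → TUnb → TCnt → LBH 5 2 ddH5

end Pool.Agent.Helper4.TH
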